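import Pool.Agent.H24.SCG.Base

/-!
Project SCG, module C3Q: the end of the mixed case.
-/

namespace Pool.Agent.H17.SCG

open Matrix Pool.SCG

variable {F : Type} [Field F]

/-- the matrix of `e * a` -/
def h3m (ρ : F) : M3 F := !![0, 0, ρ⁻¹; 0, -1, 0; ρ, 0, 0]

theorem adj_dg (a c : F) (h : a * c = 1) : adjugate (dg a 1 c) = dg c 1 a := by
  apply adj_unique
  · rw [dg_det, mul_one, h]
  · rw [dg_mul, mul_one, h, mul_comm c a, h, dg_one]

theorem dg_mul_Q0 (a b c : F) : dg a b c * Q0 F = !![0, 0, a; 0, -b, 0; c, 0, 0] := by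
  ext i j
  fin_cases i <;> fin_cases j <;> simp [dg, Q0, Matrix.mul_apply, Fin.sum_univ_three]

theorem hQ_Q0 (ρ x : F) : (hQ ρ x).transpose * Q0 F = Q0 F * hQ ρ x := by
  unfold hQ
  rw [Matrix.transpose_smul, Matrix.smul_mul, Matrix.mul_smul]
  congr 1
  ext i j
  fin_cases i <;> fin_cases j <;>
    simp [Q0, Matrix.mul_apply, Fin.sum_univ_three, Matrix.transpose_apply]

theorem exists_gl (p q r s : F) (h : p * s - q * r ≠ 0) :
    ∃ g : GL (Fin 2) F, (g : Matrix (Fin 2) (Fin 2) F) = !![p, q; r, s] := by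
  refine ⟨Matrix.GeneralLinearGroup.mkOfDetNeZero !![p, q; r, s] ?_, rfl⟩
  rw [Matrix.det_fin_two]
  simpa using h

theorem inn_is (m : SL3 F) {A : M3 F} (h : (m : M3 F) = A) : Is (inn m) false A := ⟨rfl, h⟩

theorem inn_inv (m : SL3 F) : inn m⁻¹ = (inn m)⁻¹ := by
  apply Cor.ext <;> simp [tw]

theorem inn_one : inn (1 : SL3 F) = 1 := rfl

/-- the subgroup of all `g` such that `Φ g` or `(Φ g) * a` is in `C` -/
def XG (Φ : GL (Fin 2) F →* SL3 F) (a : Cor F) (ha2 : a * a = 1)
    (hcomm : ∀ g, a * inn (Φ g) = inn (Φ g) * a) (C : Subgroup (Cor F)) :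
    Subgroup (GL (Fin 2) F) where
  carrier := {g | inn (Φ g) ∈ C ∨ inn (Φ g) * a ∈ C}
  mul_mem' := by
    intro g h hg hh
    simp only [Set.mem_ofPred_eq, map_mul, inn_mul] at *
    rcases hg with hg | hg <;> rcases hh with hh | hh
    · exact Or.inl (C.mul_mem hg hh)
    · right
      rw [mul_assoc]
      exact C.mul_mem hg hh
    · right
      have := C.mul_mem hg hh
      rwa [mul_assoc, hcomm, ← mul_assoc] at this
    · left
      have := C.mul_mem hg hh
      rwa [mul_assoc, ← mul_assoc a, hcomm, mul_assoc, ha2, mul_one] at this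
  one_mem' := by
    left
    rw [map_one, inn_one]
    exact C.one_mem
  inv_mem' := by
    intro g hg
    simp only [Set.mem_ofPred_eq, map_inv, inn_inv] at *
    have hai : a⁻¹ = a := inv_eq_of_mul_eq_one_left ha2
    rcases hg with hg | hg
    · exact Or.inl (C.inv_mem hg)
    · right
      have := C.inv_mem hg
      rw [_root_.mul_inv_rev, hai] at this
      have h1 := hcomm g⁻¹
      rw [map_inv, inn_inv] at h1
      rwa [h1] at this

/-- the subgroup of all `g` such that `Φ g` is in `C` -/
def NG (Φ : GL (Fin 2) F →* SL3 F) (C : Subgroup (Cor F)) : Subgroup (GL (Fin 2) F) where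
  carrier := {g | inn (Φ g) ∈ C}
  mul_mem' := by
    intro g h hg hh
    simp only [Set.mem_ofPred_eq, map_mul, inn_mul] at *
    exact C.mul_mem hg hh
  one_mem' := by
    show inn (Φ 1) ∈ C
    rw [map_one, inn_one]
    exact C.one_mem
  inv_mem' := by
    intro g hg
    simp only [Set.mem_ofPred_eq, map_inv, inn_inv] at *
    exact C.inv_mem hg

theorem c3q_thm (hLP : LPStmt) (hPHI : PHIStmt) : C3QStmt := by
  intro F _ _ hF a b c d e ρ σ x hs hρ hσ hx ha hb hd he hc
  have h2 : (2 : F) ≠ 0 := hF.1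
  have hm1 : (-1 : F) ≠ 1 := by
    intro h
    apply h2
    linear_combination -h
  obtain ⟨Φ, hΦ1, hΦ2⟩ := hPHI F h2
  have ha2 : a * a = 1 := hs.ia.2
  -- the element hp
  have hab : Is (a * b) true !![0, 0, -1; 0, 1, 0; 1, 0, 0] := by
    have := ha.mul_inner hb
    have e1 : Q0 F * dg 1 (-1) (-1) = !![0, 0, -1; 0, 1, 0; 1, 0, 0] := by
      ext i j
      fin_cases i <;> fin_cases j <;> simp [dg, Q0, Matrix.mul_apply, Fin.sum_univ_three]
    rwa [e1] at this
  have hp : Is (a * b * (a * b)) false (dg (-1) 1 (-1)) := by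
    have e1 : (!![0, 0, -1; 0, 1, 0; 1, 0, 0] : M3 F) * !![0, 0, 1; 0, 1, 0; -1, 0, 0] = 1 := by
      ext i j
      fin_cases i <;> fin_cases j <;> simp [Matrix.mul_apply, Fin.sum_univ_three]
    have := hab.mul_outer' hab e1
    have e2 : (!![0, 0, 1; 0, 1, 0; -1, 0, 0] : M3 F).transpose * !![0, 0, -1; 0, 1, 0; 1, 0, 0]
        = dg (-1) 1 (-1) := by
      ext i j
      fin_cases i <;> fin_cases j <;>
        simp [dg, Matrix.mul_apply, Fin.sum_univ_three, Matrix.transpose_apply]
    rw [e2] at this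
    simpa using this
  have hpab : a * b * (a * b) ∈ Subgroup.closure ({a, b} : Set (Cor F)) := by
    have h1 : a ∈ Subgroup.closure ({a, b} : Set (Cor F)) := Subgroup.subset_closure (by simp)
    have h3 : b ∈ Subgroup.closure ({a, b} : Set (Cor F)) := Subgroup.subset_closure (by simp)
    exact Subgroup.mul_mem _ (Subgroup.mul_mem _ h1 h3) (Subgroup.mul_mem _ h1 h3)
  have hp1 : a * b * (a * b) ≠ 1 := by
    intro h
    rw [h] at hp
    have := (hp.uniq is_one).2
    rw [← dg_one] at this
    exact hm1 (dg_inj this).1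
  -- the element h3 = e * a
  have h3 : Is (e * a) false (h3m ρ) := by
    have e1 : dg ρ 1 ρ⁻¹ * dg ρ⁻¹ 1 ρ = 1 := by
      rw [dg_mul, mul_inv_cancel₀ hρ, inv_mul_cancel₀ hρ, mul_one, dg_one]
    have := he.mul_outer' ha e1
    rw [dg_transpose, dg_mul_Q0] at this
    simpa [h3m] using this
  -- the element de
  have hde : Is (d * e) false (dg (ρ / σ) 1 (σ / ρ)) := by
    have e1 : dg σ 1 σ⁻¹ * dg σ⁻¹ 1 σ = 1 := by
      rw [dg_mul, mul_inv_cancel₀ hσ, inv_mul_cancel₀ hσ, mul_one, dg_one]
    have := hd.mul_outer' he e1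
    rw [dg_transpose, dg_mul] at this
    have e2 : σ⁻¹ * ρ = ρ / σ := by field_simp
    have e3 : σ * ρ⁻¹ = σ / ρ := by field_simp
    rw [e2, e3, mul_one] at this
    simpa using this
  have hfin : IsOfFinOrder (ρ / σ) := by
    have hne : ρ / σ ≠ 0 := div_ne_zero hρ hσ
    have h1 : IsOfFinOrder (Units.mk0 _ hne) := isOfFinOrder_of_finite _
    exact (Units.isOfFinOrder_val.2 h1)
  have hpos : 0 < orderOf (ρ / σ) := orderOf_pos_iff.2 hfin
  -- the closures
  have haC : a ∉ Subgroup.closure ({c, d, e} : Set (Cor F)) := by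
    intro h
    apply hs.v2
    refine Subgroup.closure_mono ?_ h
    intro y hy
    simp only [Set.mem_insert_iff, Set.mem_singleton_iff] at hy ⊢
    tauto
  have hcC : c ∈ Subgroup.closure ({c, d, e} : Set (Cor F)) := Subgroup.subset_closure (by simp)
  have hdC : d ∈ Subgroup.closure ({c, d, e} : Set (Cor F)) := Subgroup.subset_closure (by simp)
  have heC : e ∈ Subgroup.closure ({c, d, e} : Set (Cor F)) := Subgroup.subset_closure (by simp)
  -- g0
  obtain ⟨g0, hg0⟩ := exists_gl (F := F) (-x) 2 ρ x (by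
    intro h
    apply hx
    linear_combination -h)
  have hΦg0 : Is (inn (Φ g0)) false (hQ ρ x) := by
    refine inn_is _ ?_
    rw [hΦ1 g0 _ _ _ _ hg0]
    have e1 : -x * x - 2 * ρ = -(2 * ρ + x ^ 2) := by ring
    rw [e1, inv_neg]
    unfold hQ
    rw [neg_smul, ← smul_neg]
    congr 1
    ext i j
    have h24 : (2 : F)⁻¹ * 4 = 2 := by
      have : (4 : F) = 2 * 2 := by norm_num
      rw [this, ← mul_assoc, inv_mul_cancel₀ h2, one_mul]
    fin_cases i <;> fin_cases j <;> simp <;> first | ring1 | linear_combination h24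
  have hcg : c = inn (Φ g0) ∨ c = inn (Φ g0) * a := by
    rcases hc with hc | hc
    · exact Or.inl (hc.ext hΦg0)
    · right
      rw [← hΦ2 g0 a ha]
      have h1 : Is (a * inn (Φ g0)) true (Q0 F * hQ ρ x) := ha.mul_inner hΦg0
      rw [← hQ_Q0] at h1
      exact hc.ext h1
  -- x = 0
  have hx0 : x ≠ 0 := by
    intro hx0
    subst hx0
    have h4 : Is (inn (Φ g0) * (a * b * (a * b))) false (h3m ρ) := by
      have := hΦg0.mul_inner hp
      have e1 : hQ ρ 0 * dg (-1) 1 (-1) = h3m ρ := by
        ext i j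
        fin_cases i <;> fin_cases j <;>
          simp [hQ, dg, h3m, Matrix.mul_apply, Fin.sum_univ_three] <;> field_simp
      rwa [e1] at this
    have h5 : inn (Φ g0) * (a * b * (a * b)) = e * a := h4.ext h3
    have h6 : e = inn (Φ g0) * (a * b * (a * b)) * a := by
      rw [h5, mul_assoc, ha2, mul_one]
    apply hs.v1
    have m1 : a ∈ Subgroup.closure ({a, b, c, d} : Set (Cor F)) :=
      Subgroup.subset_closure (by simp)
    have m2 : b ∈ Subgroup.closure ({a, b, c, d} : Set (Cor F)) :=
      Subgroup.subset_closure (by simp)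
    have m3 : c ∈ Subgroup.closure ({a, b, c, d} : Set (Cor F)) :=
      Subgroup.subset_closure (by simp)
    have m4 : inn (Φ g0) ∈ Subgroup.closure ({a, b, c, d} : Set (Cor F)) := by
      rcases hcg with h | h
      · rwa [← h]
      · have : inn (Φ g0) = c * a := by rw [h, mul_assoc, ha2, mul_one]
        rw [this]
        exact Subgroup.mul_mem _ m3 m1
    rw [h6]
    exact Subgroup.mul_mem _ (Subgroup.mul_mem _ m4 (Subgroup.mul_mem _
      (Subgroup.mul_mem _ m1 m2) (Subgroup.mul_mem _ m1 m2))) m1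
  -- the order of λ is odd
  have hodd : Odd (orderOf (ρ / σ)) := by
    rw [← Nat.not_even_iff_odd]
    rintro ⟨m, hm⟩
    have hm0 : 0 < m := by omega
    have e1 : (ρ / σ) ^ m = -1 := by
      have h7 : ((ρ / σ) ^ m) ^ 2 = 1 := by
        rw [← pow_mul, mul_two, ← hm, pow_orderOf_eq_one]
      rw [sq, mul_self_eq_one_iff] at h7
      rcases h7 with h8 | h8
      · exfalso
        have := orderOf_le_of_pow_eq_one hm0 h8
        omega
      · exact h8
    have e2 : (σ / ρ) ^ m = -1 := by
      have : σ / ρ = (ρ / σ)⁻¹ := by rw [inv_div]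
      rw [this, inv_pow, e1]
      norm_num
    have h9 := hde.pow_dg m
    rw [e1, e2, one_pow] at h9
    have h10 : (d * e) ^ m = a * b * (a * b) := h9.ext hp
    apply hp1
    apply hs.v4
    · rw [← h10]
      exact Subgroup.pow_mem _ (Subgroup.mul_mem _ (Subgroup.subset_closure (by simp))
        (Subgroup.subset_closure (by simp))) m
    · refine Subgroup.closure_mono ?_ hpab
      intro y hy
      simp only [Set.mem_insert_iff, Set.mem_singleton_iff] at hy ⊢
      tauto
  have hne1 : orderOf (ρ / σ) ≠ 1 := by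
    intro h
    rw [orderOf_eq_one_iff] at h
    have h7 : σ / ρ = 1 := by
      rw [← inv_div, h, inv_one]
    rw [h, h7, dg_one] at hde
    have h8 : d * e = 1 := hde.ext is_one
    have h9 : d = e := by
      have := hs.ie.2
      calc d = d * (e * e) := by rw [this, mul_one]
        _ = e := by rw [← mul_assoc, h8, one_mul]
    exact hs.de (by rw [h9])
  have hne3 : orderOf (ρ / σ) ≠ 3 := by
    intro h
    have h7 : (ρ / σ) ^ 3 = 1 := by rw [← h, pow_orderOf_eq_one]
    have h8 := hF.2 _ h7
    rw [← orderOf_eq_one_iff] at h8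
    omega
  have h5 : 5 ≤ orderOf (ρ / σ) := by
    obtain ⟨k, hk⟩ := hodd
    omega
  -- the groups X and N
  set C : Subgroup (Cor F) := Subgroup.closure ({c, d, e} : Set (Cor F)) with hCdef
  have hcomm : ∀ g, a * inn (Φ g) = inn (Φ g) * a := fun g => hΦ2 g a ha
  obtain ⟨x1, hx1⟩ := exists_gl (F := F) 0 (-2) ρ 0 (by
    intro h
    have : 2 * ρ = 0 := by linear_combination h
    rcases mul_eq_zero.1 this with h' | h'
    · exact h2 h'
    · exact hρ h')
  have hΦx1 : Is (inn (Φ x1)) false (h3m ρ) := by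
    refine inn_is _ ?_
    rw [hΦ1 x1 _ _ _ _ hx1]
    ext i j
    fin_cases i <;> fin_cases j <;> simp [h3m] <;> field_simp
  have hx1e : inn (Φ x1) = e * a := hΦx1.ext h3
  obtain ⟨t, ht⟩ := exists_gl (F := F) (ρ / σ) 0 0 1 (by
    rw [mul_one, mul_zero, sub_zero]
    exact div_ne_zero hρ hσ)
  have hΦt : Is (inn (Φ t)) false (dg (ρ / σ) 1 (σ / ρ)) := by
    refine inn_is _ ?_
    rw [hΦ1 t _ _ _ _ ht]
    ext i j
    fin_cases i <;> fin_cases j <;> simp [dg] <;> field_simp
  have hte : inn (Φ t) = d * e := hΦt.ext hde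
  obtain ⟨g, hgX, hg⟩ := hLP F h2 (XG Φ a ha2 hcomm C) (NG Φ C)
    (by
      intro g hg
      exact Or.inl hg)
    (by
      intro g hg h hh hgN hhN
      have h1 : inn (Φ g) * a ∈ C := by
        rcases hg with h' | h'
        · exact absurd h' hgN
        · exact h'
      have h4 : inn (Φ h) * a ∈ C := by
        rcases hh with h' | h'
        · exact absurd h' hhN
        · exact h'
      show inn (Φ (g * h)) ∈ C
      rw [map_mul, inn_mul]
      have := C.mul_mem h1 h4
      rwa [mul_assoc, ← mul_assoc a, hcomm, mul_assoc, ha2, mul_one] at this)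
    (by
      intro g k hg
      have hk : k ≠ 0 := by
        intro hk
        have hdet : (g : Matrix (Fin 2) (Fin 2) F).det ≠ 0 := by
          have := (Matrix.GeneralLinearGroup.det g).ne_zero
          simpa using this
        rw [hg, Matrix.det_fin_two] at hdet
        simp [hk] at hdet
      have h1 : Is (inn (Φ g)) false (1 : M3 F) := by
        refine inn_is _ ?_
        rw [hΦ1 g _ _ _ _ hg]
        ext i j
        fin_cases i <;> fin_cases j <;> simp <;> field_simp
      have h4 : inn (Φ g) = 1 := h1.ext is_one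
      show inn (Φ g) ∈ C
      rw [h4]
      exact C.one_mem)
    x1 t g0 (-2) ρ (ρ / σ)
    (by
      right
      rw [hx1e, mul_assoc, ha2, mul_one]
      exact heC)
    (by
      intro h
      have h1 : inn (Φ x1) ∈ C := h
      rw [hx1e] at h1
      have h4 := C.mul_mem heC h1
      rw [← mul_assoc, hs.ie.2, one_mul] at h4
      exact haC h4)
    (by
      left
      rw [hte]
      exact C.mul_mem hdC heC)
    (by
      rcases hcg with h | h
      · left
        rw [← h]
        exact hcC
      · right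
        rw [← h]
        exact hcC)
    hx1 ht hodd h5
    (by
      rw [hg0]
      simpa using hx0)
    (by
      rw [hg0]
      simpa using hρ)
  have hΦg : Is (inn (Φ g)) false (dg (-1) 1 (-1)) := by
    refine inn_is _ ?_
    rw [hΦ1 g _ _ _ _ hg]
    ext i j
    fin_cases i <;> fin_cases j <;> simp [dg]
  have hgp : inn (Φ g) = a * b * (a * b) := hΦg.ext hp
  have haab : a ∈ Subgroup.closure ({a, b} : Set (Cor F)) := Subgroup.subset_closure (by simp)
  rcases hgX with h | h
  · rw [hgp] at h
    exact hp1 (hs.v3 _ hpab h)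
  · rw [hgp] at h
    have h1 := hs.v3 _ (Subgroup.mul_mem _ hpab haab) h
    have h4 := hp.mul_outer ha
    rw [h1] at h4
    have := (h4.uniq is_one).1
    simp at this

end Pool.Agent.H17.SCG
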