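import Pool.Agent.H24.SCG.Base

/-!
Project SCG, module C3P: parametrisation of the mixed case.
-/

namespace Pool.Agent.H17.SCG.P

open Matrix Pool.SCG

variable {F : Type} [Field F]

theorem mul3 (a b c d e f g h i a' b' c' d' e' f' g' h' i' : F) :
    (!![a, b, c; d, e, f; g, h, i] : M3 F) * !![a', b', c'; d', e', f'; g', h', i'] =
      !![a * a' + b * d' + c * g', a * b' + b * e' + c * h', a * c' + b * f' + c * i';
        d * a' + e * d' + f * g', d * b' + e * e' + f * h', d * c' + e * f' + f * i';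
        g * a' + h * d' + i * g', g * b' + h * e' + i * h', g * c' + h * f' + i * i'] := by
  ext p q
  fin_cases p <;> fin_cases q <;> simp [Matrix.mul_apply, Fin.sum_univ_three]

theorem tr3 (a b c d e f g h i : F) :
    (!![a, b, c; d, e, f; g, h, i] : M3 F).transpose = !![a, d, g; b, e, h; c, f, i] := by
  ext p q
  fin_cases p <;> fin_cases q <;> simp

theorem smul3 (r a b c d e f g h i : F) :
    r • (!![a, b, c; d, e, f; g, h, i] : M3 F) =
      !![r * a, r * b, r * c; r * d, r * e, r * f; r * g, r * h, r * i] := by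
  ext p q
  fin_cases p <;> fin_cases q <;> simp

theorem eq3 {a b c d e f g h i a' b' c' d' e' f' g' h' i' : F} (h1 : a = a') (h2 : b = b')
    (h3 : c = c') (h4 : d = d') (h5 : e = e') (h6 : f = f') (h7 : g = g') (h8 : h = h')
    (h9 : i = i') :
    (!![a, b, c; d, e, f; g, h, i] : M3 F) = !![a', b', c'; d', e', f'; g', h', i'] := by
  subst h1 h2 h3 h4 h5 h6 h7 h8 h9
  rfl

theorem hom3 (w ψ : Fin 3 → F) : (2 : F) • Matrix.vecMulVec w ψ - 1 =
    !![2 * (w 0 * ψ 0) - 1, 2 * (w 0 * ψ 1), 2 * (w 0 * ψ 2);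
      2 * (w 1 * ψ 0), 2 * (w 1 * ψ 1) - 1, 2 * (w 1 * ψ 2);
      2 * (w 2 * ψ 0), 2 * (w 2 * ψ 1), 2 * (w 2 * ψ 2) - 1] := by
  ext p q
  fin_cases p <;> fin_cases q <;> simp [Matrix.vecMulVec_apply]

/-- the matrix of the base change -/
def Pm (b1 b2 v1 v2 v3 s m : F) : M3 F :=
  !![v1, b2 * v2 * s, -(v1 * m); v2, -(b1 * v1 * s), -(v2 * m); v3, 0, v3 * m]

theorem Pm_det {b1 b2 b3 v1 v2 v3 s m : F} (iso : b1 * v1 ^ 2 + b2 * v2 ^ 2 + b3 * v3 ^ 2 = 0)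
    (hs : s * v3 = 1) (hm : m * (2 * b3 * v3 ^ 2) = 1) :
    (Pm b1 b2 v1 v2 v3 s m).det = 1 := by
  unfold Pm
  rw [Matrix.det_fin_three]
  simp only [Matrix.of_apply, Matrix.cons_val', Matrix.cons_val_zero, Matrix.cons_val_one,
    Matrix.cons_val, Matrix.cons_val_fin_one]
  linear_combination (-2 * m * s * v3) * iso + (2 * m * b3 * v3 ^ 2) * hs + hm

theorem Pm_form {b1 b2 b3 v1 v2 v3 s m : F} (iso : b1 * v1 ^ 2 + b2 * v2 ^ 2 + b3 * v3 ^ 2 = 0)
    (hs : s * v3 = 1) (hm : m * (2 * b3 * v3 ^ 2) = 1) (hdet : b1 * b2 * b3 = 1) :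
    (Pm b1 b2 v1 v2 v3 s m).transpose * dg b1 b2 b3 * Pm b1 b2 v1 v2 v3 s m = Q0 F := by
  unfold Pm dg Q0
  rw [tr3, mul3, mul3]
  apply eq3
  · linear_combination iso
  · ring
  · linear_combination (-m) * iso + hm
  · ring
  · linear_combination (b1 * b2 * s ^ 2) * iso - (v3 * s) ^ 2 * hdet - (s * v3 + 1) * hs
  · ring
  · linear_combination (-m) * iso + hm
  · ring
  · linear_combination m ^ 2 * iso

theorem Pm_form4 {b1 b2 b3 v1 v2 v3 s m : F} (iso : b1 * v1 ^ 2 + b2 * v2 ^ 2 + b3 * v3 ^ 2 = 0)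
    (hs : s * v3 = 1) (hm : m * (2 * b3 * v3 ^ 2) = 1) (hdet : b1 * b2 * b3 = 1) :
    (Pm b1 b2 v1 v2 v3 s m).transpose * dg (-b1) (-b2) b3 * Pm b1 b2 v1 v2 v3 s m =
      dg (2 * b3 * v3 ^ 2) 1 m := by
  unfold Pm dg
  rw [tr3, mul3, mul3]
  apply eq3
  · linear_combination -iso
  · ring
  · linear_combination m * iso
  · ring
  · linear_combination -(b1 * b2 * s ^ 2) * iso + (v3 * s) ^ 2 * hdet + (s * v3 + 1) * hs
  · ring
  · linear_combination m * iso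
  · ring
  · linear_combination -m ^ 2 * iso + m * hm

theorem Pm_b {b1 b2 b3 v1 v2 v3 s m : F} (iso : b1 * v1 ^ 2 + b2 * v2 ^ 2 + b3 * v3 ^ 2 = 0)
    (hm : m * (2 * b3 * v3 ^ 2) = 1) (v φ : Fin 3 → F) (h0 : v 0 = v1) (h1 : v 1 = v2)
    (h2 : v 2 = v3) (g0 : φ 0 = -(m * (b1 * v1))) (g1 : φ 1 = -(m * (b2 * v2)))
    (g2 : φ 2 = m * (b3 * v3)) :
    ((2 : F) • Matrix.vecMulVec v φ - 1) * Pm b1 b2 v1 v2 v3 s m =
      Pm b1 b2 v1 v2 v3 s m * dg 1 (-1) (-1) := by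
  rw [hom3, h0, h1, h2, g0, g1, g2]
  unfold Pm dg
  rw [mul3, mul3]
  apply eq3
  · linear_combination (-2 * m * v1) * iso + 2 * v1 * hm
  · ring
  · linear_combination (2 * m ^ 2 * v1) * iso
  · linear_combination (-2 * m * v2) * iso + 2 * v2 * hm
  · ring
  · linear_combination (2 * m ^ 2 * v2) * iso
  · linear_combination (-2 * m * v3) * iso + 2 * v3 * hm
  · ring
  · linear_combination (2 * m ^ 2 * v3) * iso

theorem Pm_k {b1 b2 b3 v1 v2 v3 s m l t r : F}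
    (hm : m * (2 * b3 * v3 ^ 2) = 1) (w ψ : Fin 3 → F)
    (ht : ψ 0 * v1 + ψ 1 * v2 + ψ 2 * v3 = t)
    (k0 : 2 * t * w 0 = (1 - l) * v1) (k1 : 2 * t * w 1 = (1 - l) * v2)
    (k2 : 2 * t * w 2 = (1 + l) * v3)
    (hl : l * (-(ψ 0 * v1) - ψ 1 * v2 + ψ 2 * v3) = t)
    (hz : ψ 0 * (b2 * v2) - ψ 1 * (b1 * v1) = 0) (hr : r * (l * (2 * b3 * v3 ^ 2)) = 1)
    (hl0 : l ≠ 0) :
    ((2 : F) • Matrix.vecMulVec w ψ - 1) * Pm b1 b2 v1 v2 v3 s m =
      Pm b1 b2 v1 v2 v3 s m * !![0, 0, r; 0, -1, 0; l * (2 * b3 * v3 ^ 2), 0, 0] := by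
  have hrm : r * l = m := by
    have hmu : 2 * b3 * v3 ^ 2 ≠ 0 := by
      intro h
      rw [h, mul_zero] at hm
      exact zero_ne_one hm
    apply mul_right_cancel₀ hmu
    rw [hm, mul_assoc, hr]
  rw [hom3]
  unfold Pm
  rw [mul3, mul3]
  apply eq3
  · linear_combination k0 + 2 * w 0 * ht + l * v1 * hm
  · linear_combination 2 * w 0 * s * hz
  · apply mul_left_cancel₀ hl0
    linear_combination m * k0 + 2 * w 0 * m * hl + (-v1) * hrm
  · linear_combination k1 + 2 * w 1 * ht + l * v2 * hm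
  · linear_combination 2 * w 1 * s * hz
  · apply mul_left_cancel₀ hl0
    linear_combination m * k1 + 2 * w 1 * m * hl + (-v2) * hrm
  · linear_combination k2 + 2 * w 2 * ht - l * v3 * hm
  · linear_combination 2 * w 2 * s * hz
  · apply mul_left_cancel₀ hl0
    linear_combination m * k2 + 2 * w 2 * m * hl + (-v3) * hrm

/-- `P * (δ • hQ) = δ • (H1 * P)` -/
theorem Pm_c {b1 b2 b3 v1 v2 v3 s m x : F}
    (iso : b1 * v1 ^ 2 + b2 * v2 ^ 2 + b3 * v3 ^ 2 = 0)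
    (hs : s * v3 = 1) (hm : m * (2 * b3 * v3 ^ 2) = 1) (hdet : b1 * b2 * b3 = 1)
    (hx : x * v1 = 2 * b2 * b3 * v2 * v3) (hv1 : v1 ≠ 0) :
    2 * (2 * b3 * v3 ^ 2) + x ^ 2 ≠ 0 ∧
    dg 1 (-1) (-1) * Pm b1 b2 v1 v2 v3 s m = Pm b1 b2 v1 v2 v3 s m * hQ (2 * b3 * v3 ^ 2) x := by
  have hb1 : b1 ≠ 0 := by
    rintro rfl
    rw [zero_mul, zero_mul] at hdet
    exact zero_ne_one hdet
  have hmu : 2 * b3 * v3 ^ 2 ≠ 0 := by
    intro h
    rw [h, mul_zero] at hm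
    exact zero_ne_one hm
  have hδ : (2 * (2 * b3 * v3 ^ 2) + x ^ 2) * (b1 * v1 ^ 2) = -(2 * b3 * v3 ^ 2) ^ 2 := by
    linear_combination (4 * b3 * v3 ^ 2) * iso + b1 * (x * v1 + 2 * b2 * b3 * v2 * v3) * hx
      + 4 * b2 * b3 * v2 ^ 2 * v3 ^ 2 * hdet
  have hc1 : (v1 + x * (b2 * v2 * s) + 2 * b3 * v3 ^ 2 * (v1 * m)) * (b1 * v1)
      = -(2 * b3 * v3 ^ 2) := by
    linear_combination 2 * iso + b1 * v1 ^ 2 * hm + b1 * b2 * v2 * s * hx
      + 2 * b1 * b2 ^ 2 * b3 * v2 ^ 2 * hs + 2 * b2 * v2 ^ 2 * hdet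
  have hbv : b1 * v1 ≠ 0 := mul_ne_zero hb1 hv1
  have hne : 2 * (2 * b3 * v3 ^ 2) + x ^ 2 ≠ 0 := by
    intro h
    rw [h, zero_mul] at hδ
    have : (2 * b3 * v3 ^ 2) ^ 2 = 0 := by linear_combination hδ
    exact hmu (pow_eq_zero_iff (by norm_num) |>.1 this)
  have j1 : (2 * (2 * b3 * v3 ^ 2) + x ^ 2) * v1 =
      (v1 + x * (b2 * v2 * s) + 2 * b3 * v3 ^ 2 * (v1 * m)) * (2 * b3 * v3 ^ 2) := by
    apply mul_right_cancel₀ hbv
    linear_combination hδ - (2 * b3 * v3 ^ 2) * hc1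
  have j2 : (2 * (2 * b3 * v3 ^ 2) + x ^ 2) * (b2 * v2 * s) =
      (v1 + x * (b2 * v2 * s) + 2 * b3 * v3 ^ 2 * (v1 * m)) * x := by
    apply mul_right_cancel₀ hbv
    apply mul_right_cancel₀ hv1
    linear_combination (b2 * v2 * s) * hδ - (x * v1) * hc1 + (2 * b3 * v3 ^ 2) * hx
      - (4 * b3 ^ 2 * b2 * v2 * v3 ^ 3) * hs
  have j3 : (2 * (2 * b3 * v3 ^ 2) + x ^ 2) * (v1 * m) =
      v1 + x * (b2 * v2 * s) + 2 * b3 * v3 ^ 2 * (v1 * m) := by
    linear_combination m * j1 + (v1 + x * (b2 * v2 * s) + 2 * b3 * v3 ^ 2 * (v1 * m)) * hm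
  have i2 : v2 - x * (b1 * v1 * s) + 2 * b3 * v3 ^ 2 * (v2 * m) = 0 := by
    linear_combination v2 * hm - b1 * s * hx - 2 * b1 * b2 * b3 * v2 * hs - 2 * v2 * hdet
  have i3 : v3 - 2 * b3 * v3 ^ 2 * (v3 * m) = 0 := by
    linear_combination -v3 * hm
  refine ⟨hne, ?_⟩
  have key : Pm b1 b2 v1 v2 v3 s m * !![-x ^ 2, 2 * x, -2;
      2 * (2 * b3 * v3 ^ 2) * x, x ^ 2 - 2 * (2 * b3 * v3 ^ 2), -(2 * x);
      -(2 * (2 * b3 * v3 ^ 2) ^ 2), -(2 * (2 * b3 * v3 ^ 2) * x), -x ^ 2] =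
      (2 * (2 * b3 * v3 ^ 2) + x ^ 2) • (dg 1 (-1) (-1) * Pm b1 b2 v1 v2 v3 s m) := by
    unfold Pm dg
    rw [mul3, mul3, smul3]
    apply eq3
    · linear_combination (-2) * j1
    · linear_combination (-2) * j2
    · linear_combination 2 * j3
    · linear_combination (2 * (2 * b3 * v3 ^ 2)) * i2
    · linear_combination (2 * x) * i2
    · linear_combination (-2) * i2
    · linear_combination (2 * (2 * b3 * v3 ^ 2)) * i3
    · linear_combination (2 * x) * i3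
    · linear_combination (-2) * i3
  unfold hQ
  rw [Matrix.mul_smul, key, smul_smul, inv_mul_cancel₀ hne, one_smul]

theorem dgv (b1 b2 b3 : F) (v : Fin 3 → F) :
    dg b1 b2 b3 *ᵥ v = ![b1 * v 0, b2 * v 1, b3 * v 2] := by
  ext i
  fin_cases i <;> simp [dg, Matrix.mulVec, dotProduct, Fin.sum_univ_three]

theorem dot3 (u v : Fin 3 → F) : u ⬝ᵥ v = u 0 * v 0 + u 1 * v 1 + u 2 * v 2 := by
  simp [dotProduct, Fin.sum_univ_three]

theorem vec3 {u v : Fin 3 → F} (h0 : u 0 = v 0) (h1 : u 1 = v 1) (h2 : u 2 = v 2) : u = v := by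
  ext i
  fin_cases i
  · exact h0
  · exact h1
  · exact h2

theorem hom_mulVec (v φ u : Fin 3 → F) :
    ((2 : F) • Matrix.vecMulVec v φ - 1) *ᵥ u = (2 * (φ ⬝ᵥ u)) • v - u := by
  rw [hom3]
  ext i
  fin_cases i <;> simp [Matrix.mulVec, dotProduct, Fin.sum_univ_three] <;> ring

theorem conj_eq {A P R : M3 F} (hP : P.det = 1) (h : A * P = P * R) :
    adjugate P * A * P = R := by
  rw [mul_assoc, h, ← mul_assoc, adj_mul_self hP, one_mul]

theorem hQ_Q0 (ρ x : F) : (hQ ρ x).transpose * Q0 F = Q0 F * hQ ρ x := by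
  unfold hQ
  rw [Matrix.transpose_smul, Matrix.smul_mul, Matrix.mul_smul]
  congr 1
  ext i j
  fin_cases i <;> fin_cases j <;>
    simp [Q0, Matrix.mul_apply, Fin.sum_univ_three, Matrix.transpose_apply]

theorem c3p_thm (hINV : INVStmt) (hHCO : HCOStmt) : C3PStmt := by
  intro F _ _ hF a b c d e b1 b2 b3 hs hN hbs hds
  have h2 : (2 : F) ≠ 0 := hF.1
  have hdet : b1 * b2 * b3 = 1 := by
    have := hN.ha.det
    rwa [dg_det] at this
  have ha2 : a * a = 1 := hs.ia.2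
  have haB : Is a true (dg b1 b2 b3) := hN.ha
  have heB : Is e true (dg (-b1) (-b2) b3) := hN.he
  -- the homology b
  obtain ⟨v, φ, hv⟩ : ∃ v φ : Fin 3 → F, IsHom b v φ := by
    rcases hINV F h2 b hs.ib.1 hs.ib.2 with h | h
    · exact h
    · rw [hbs] at h
      exact absurd h.1 (by simp)
  obtain ⟨hQ0, hφ⟩ := (hHCO F h2 b e v φ _ hv heB (dg_transpose _ _ _)).1 hs.be
  -- the homology k = a * d
  set k : Cor F := a * d with hk
  have hak : a * k = d := by rw [hk, ← mul_assoc, ha2, one_mul]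
  have hka : k * a = d := by rw [hk, hs.ad, mul_assoc, ha2, mul_one]
  have hk2 : k * k = 1 := by
    calc k * k = k * a * d := by rw [hk, mul_assoc, mul_assoc, mul_assoc]
      _ = d * d := by rw [hka]
      _ = 1 := hs.id.2
  have hk1 : k ≠ 1 := by
    intro h
    rw [h, mul_one] at hak
    apply hs.ab
    rw [hak]
    exact hs.bd.symm
  have hks : k.s = false := by
    rw [hk, Cor.mul_s, haB.1, hds]
    rfl
  obtain ⟨w, ψ, hw⟩ : ∃ w ψ : Fin 3 → F, IsHom k w ψ := by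
    rcases hINV F h2 k hk1 hk2 with h | h
    · exact h
    · rw [hks] at h
      exact absurd h.1 (by simp)
  obtain ⟨hq0, hψ⟩ := (hHCO F h2 k a w ψ _ hw haB (dg_transpose _ _ _)).1 (by rw [hak, hka])
  -- contradictions
  have hA : ∀ r : F, dg b1 b2 b3 *ᵥ v ≠ r • φ := by
    intro r h
    have := (hHCO F h2 b a v φ _ hv haB (dg_transpose _ _ _)).2 r h
    exact hs.ab this.symm
  have hke : k * e ≠ e * k := by
    intro h
    apply hs.de
    calc d * e = a * (k * e) := by rw [← mul_assoc, hak]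
      _ = (a * e) * k := by rw [h, mul_assoc]
      _ = e * (a * k) := by rw [hs.ae, mul_assoc]
      _ = e * d := by rw [hak]
  have hB : ∀ r : F, dg (-b1) (-b2) b3 *ᵥ w ≠ r • ψ := by
    intro r h
    exact hke ((hHCO F h2 k e w ψ _ hw heB (dg_transpose _ _ _)).2 r h)
  -- components
  rw [dgv, dot3] at hQ0 hφ hq0 hψ
  simp only [Matrix.cons_val_zero, Matrix.cons_val_one, Matrix.cons_val] at hQ0 hφ hq0 hψ
  set Q : F := v 0 * (-b1 * v 0) + v 1 * (-b2 * v 1) + v 2 * (b3 * v 2) with hQ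
  set q : F := w 0 * (b1 * w 0) + w 1 * (b2 * w 1) + w 2 * (b3 * w 2) with hq
  have p0 : φ 0 = -(Q⁻¹ * (b1 * v 0)) := by
    rw [hφ]
    simp
  have p1 : φ 1 = -(Q⁻¹ * (b2 * v 1)) := by
    rw [hφ]
    simp
  have p2 : φ 2 = Q⁻¹ * (b3 * v 2) := by
    rw [hφ]
    simp
  have s0 : ψ 0 = q⁻¹ * (b1 * w 0) := by
    rw [hψ]
    simp
  have s1 : ψ 1 = q⁻¹ * (b2 * w 1) := by
    rw [hψ]
    simp
  have s2 : ψ 2 = q⁻¹ * (b3 * w 2) := by
    rw [hψ]
    simp
  have hQi : Q * Q⁻¹ = 1 := mul_inv_cancel₀ hQ0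
  have hqi : q * q⁻¹ = 1 := mul_inv_cancel₀ hq0
  have hv3 : v 2 ≠ 0 := by
    intro h
    apply hA (-Q)
    rw [dgv]
    apply vec3
    · show b1 * v 0 = -Q * φ 0
      rw [p0]
      linear_combination -(b1 * v 0) * hQi
    · show b2 * v 1 = -Q * φ 1
      rw [p1]
      linear_combination -(b2 * v 1) * hQi
    · show b3 * v 2 = -Q * φ 2
      rw [p2, h]
      ring
  have hv12 : ¬ (v 0 = 0 ∧ v 1 = 0) := by
    rintro ⟨h0, h1⟩
    apply hA Q
    rw [dgv]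
    apply vec3
    · show b1 * v 0 = Q * φ 0
      rw [p0, h0]
      ring
    · show b2 * v 1 = Q * φ 1
      rw [p1, h1]
      ring
    · show b3 * v 2 = Q * φ 2
      rw [p2]
      linear_combination -(b3 * v 2) * hQi
  have hw3 : w 2 ≠ 0 := by
    intro h
    apply hB (-q)
    rw [dgv]
    apply vec3
    · show -b1 * w 0 = -q * ψ 0
      rw [s0]
      linear_combination (b1 * w 0) * hqi
    · show -b2 * w 1 = -q * ψ 1
      rw [s1]
      linear_combination (b2 * w 1) * hqi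
    · show b3 * w 2 = -q * ψ 2
      rw [s2, h]
      ring
  have hw12 : ¬ (w 0 = 0 ∧ w 1 = 0) := by
    rintro ⟨h0, h1⟩
    apply hB q
    rw [dgv]
    apply vec3
    · show -b1 * w 0 = q * ψ 0
      rw [s0, h0]
      ring
    · show -b2 * w 1 = q * ψ 1
      rw [s1, h1]
      ring
    · show b3 * w 2 = q * ψ 2
      rw [s2]
      linear_combination -(b3 * w 2) * hqi
  -- commutation of b and d
  have hbI : Is b false ((2 : F) • Matrix.vecMulVec v φ - 1) := ⟨hv.1, hv.2.2⟩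
  have hkI : Is k false ((2 : F) • Matrix.vecMulVec w ψ - 1) := ⟨hw.1, hw.2.2⟩
  have hdI : Is d true (dg b1 b2 b3 * ((2 : F) • Matrix.vecMulVec w ψ - 1)) := by
    have := haB.mul_inner hkI
    rwa [hak] at this
  have hedI : Is (e * d) false (dg (-1) (-1) 1 * ((2 : F) • Matrix.vecMulVec w ψ - 1)) := by
    have e1 : dg (-b1) (-b2) b3 * dg (-(b2 * b3)) (-(b1 * b3)) (b1 * b2) = 1 := by
      rw [dg_mul, ← dg_one]
      have r1 : -b1 * -(b2 * b3) = 1 := by linear_combination hdet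
      have r2 : -b2 * -(b1 * b3) = 1 := by linear_combination hdet
      have r3 : b3 * (b1 * b2) = 1 := by linear_combination hdet
      rw [r1, r2, r3]
    have := heB.mul_outer' hdI e1
    rw [dg_transpose, ← mul_assoc, dg_mul] at this
    have r1 : -(b2 * b3) * b1 = -1 := by linear_combination -hdet
    have r2 : -(b1 * b3) * b2 = -1 := by linear_combination -hdet
    have r3 : b1 * b2 * b3 = 1 := by linear_combination hdet
    rw [r1, r2, r3] at this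
    simpa using this
  have hcomm : b * (e * d) = e * d * b := by
    rw [← mul_assoc, hs.be, mul_assoc, hs.bd, mul_assoc]
  rw [comm_inner_iff hbI hedI] at hcomm
  set u : Fin 3 → F := (dg (-1) (-1) 1 * ((2 : F) • Matrix.vecMulVec w ψ - 1)) *ᵥ v with hu
  have hbv : ((2 : F) • Matrix.vecMulVec v φ - 1) *ᵥ v = v := by
    rw [hom_mulVec, hv.2.1]
    module
  have hbu : ((2 : F) • Matrix.vecMulVec v φ - 1) *ᵥ u = u := by
    rw [hu, Matrix.mulVec_mulVec, hcomm, ← Matrix.mulVec_mulVec, hbv]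
  set l : F := φ ⬝ᵥ u with hl
  have hul : ∀ i, u i = l * v i := by
    intro i
    rw [hom_mulVec] at hbu
    have h3 := congrFun hbu i
    simp only [Pi.sub_apply, Pi.smul_apply, smul_eq_mul] at h3
    apply mul_left_cancel₀ h2
    linear_combination -h3
  set t : F := ψ ⬝ᵥ v with ht
  have hu' : u = ![-(2 * t * w 0 - v 0), -(2 * t * w 1 - v 1), 2 * t * w 2 - v 2] := by
    rw [hu, ← Matrix.mulVec_mulVec, hom_mulVec, dgv]
    simp only [Pi.sub_apply, Pi.smul_apply, smul_eq_mul]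
    rw [neg_one_mul, neg_one_mul, one_mul]
  have k0 : 2 * t * w 0 = (1 - l) * v 0 := by
    have h3 := hul 0
    rw [hu'] at h3
    simp only [Matrix.cons_val_zero] at h3
    linear_combination -h3
  have k1 : 2 * t * w 1 = (1 - l) * v 1 := by
    have h3 := hul 1
    rw [hu'] at h3
    simp only [Matrix.cons_val_one, Matrix.cons_val_zero] at h3
    linear_combination -h3
  have k2 : 2 * t * w 2 = (1 + l) * v 2 := by
    have h3 := hul 2
    rw [hu'] at h3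
    simp only [Matrix.cons_val] at h3
    linear_combination h3
  clear_value l u
  rw [dot3] at ht
  have ht0 : t ≠ 0 := by
    intro h
    rw [h] at k0 k1 k2
    have h3 : (1 + l) * v 2 = 0 := by linear_combination -k2
    rcases mul_eq_zero.1 h3 with h4 | h4
    · apply hv12
      constructor
      · apply mul_left_cancel₀ h2
        linear_combination -k0 + v 0 * h4
      · apply mul_left_cancel₀ h2
        linear_combination -k1 + v 1 * h4
    · exact hv3 h4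
  have h2t : 2 * t ≠ 0 := mul_ne_zero h2 ht0
  have hl1 : 1 - l ≠ 0 := by
    intro h
    apply hw12
    constructor
    · apply mul_left_cancel₀ h2t
      linear_combination k0 + v 0 * h
    · apply mul_left_cancel₀ h2t
      linear_combination k1 + v 1 * h
  have hl2 : 1 + l ≠ 0 := by
    intro h
    apply hw3
    apply mul_left_cancel₀ h2t
    linear_combination k2 + v 2 * h
  have htq : t * q = b1 * w 0 * v 0 + b2 * w 1 * v 1 + b3 * w 2 * v 2 := by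
    rw [ht, s0, s1, s2]
    linear_combination (b1 * w 0 * v 0 + b2 * w 1 * v 1 + b3 * w 2 * v 2) * hqi
  have iso : b1 * v 0 ^ 2 + b2 * v 1 ^ 2 + b3 * v 2 ^ 2 = 0 := by
    apply mul_left_cancel₀ (mul_ne_zero hl1 hl2)
    linear_combination (-4 * t) * htq + (4 * t ^ 2) * hq
      - (2 * b1 * v 0 - b1 * (2 * t * w 0 + (1 - l) * v 0)) * k0
      - (2 * b2 * v 1 - b2 * (2 * t * w 1 + (1 - l) * v 1)) * k1
      - (2 * b3 * v 2 - b3 * (2 * t * w 2 + (1 + l) * v 2)) * k2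
  have hQ2 : Q = 2 * b3 * v 2 ^ 2 := by
    rw [hQ]
    linear_combination -iso
  have hψw : ψ 0 * w 0 + ψ 1 * w 1 + ψ 2 * w 2 = 1 := by
    have := hw.2.1
    rwa [dot3] at this
  have hlt : l * (-(ψ 0 * v 0) - ψ 1 * v 1 + ψ 2 * v 2) = t := by
    linear_combination -(ψ 0 * k0 + ψ 1 * k1 + ψ 2 * k2) + 2 * t * hψw + ht
  have hz : ψ 0 * (b2 * v 1) - ψ 1 * (b1 * v 0) = 0 := by
    rw [s0, s1]
    apply mul_left_cancel₀ h2t
    linear_combination (q⁻¹ * b1 * b2 * v 1) * k0 - (q⁻¹ * b1 * b2 * v 0) * k1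
  have hl0 : l ≠ 0 := by
    intro h
    rw [h, zero_mul] at hlt
    exact ht0 hlt.symm
  have hv0 : v 0 ≠ 0 := by
    intro h
    have hw0 : w 0 = 0 := by
      apply mul_left_cancel₀ h2t
      rw [k0, h]
      ring
    have hψ0 : ψ 0 = 0 := by
      rw [s0, hw0]
      ring
    have hkc : k * c = c * k := by
      rcases hN.hc with hc | hc
      · rw [comm_inner_iff hkI hc, hom3, hw0, hψ0]
        unfold dg
        rw [mul3, mul3]
        apply eq3 <;> ring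
      · refine (hHCO F h2 k c w ψ _ hw hc (dg_transpose _ _ _)).2 (-q) ?_
        rw [dgv]
        apply vec3
        · show b1 * w 0 = -q * ψ 0
          rw [hw0, hψ0]
          ring
        · show -b2 * w 1 = -q * ψ 1
          rw [s1]
          linear_combination (b2 * w 1) * hqi
        · show -b3 * w 2 = -q * ψ 2
          rw [s2]
          linear_combination (b3 * w 2) * hqi
    apply hs.cd
    calc c * d = c * (a * k) := by rw [hak]
      _ = (c * a) * k := by rw [mul_assoc]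
      _ = (a * c) * k := by rw [hs.ac]
      _ = a * (k * c) := by rw [mul_assoc, hkc]
      _ = d * c := by rw [← mul_assoc, hak]
  -- the base change
  have hρ : 2 * b3 * v 2 ^ 2 ≠ 0 := by
    rw [← hQ2]
    exact hQ0
  have hsv : (v 2)⁻¹ * v 2 = 1 := inv_mul_cancel₀ hv3
  have hmv : (2 * b3 * v 2 ^ 2)⁻¹ * (2 * b3 * v 2 ^ 2) = 1 := inv_mul_cancel₀ hρ
  have hσ : l * (2 * b3 * v 2 ^ 2) ≠ 0 := mul_ne_zero hl0 hρ
  have hr : (l * (2 * b3 * v 2 ^ 2))⁻¹ * (l * (2 * b3 * v 2 ^ 2)) = 1 := inv_mul_cancel₀ hσ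
  have hx : 2 * b2 * b3 * v 1 * v 2 / v 0 * v 0 = 2 * b2 * b3 * v 1 * v 2 :=
    div_mul_cancel₀ _ hv0
  have hPdet := Pm_det iso hsv hmv
  obtain ⟨hne, hc1⟩ := Pm_c iso hsv hmv hdet hx hv0
  have hform := Pm_form iso hsv hmv hdet
  refine ⟨⟨Pm b1 b2 (v 0) (v 1) (v 2) (v 2)⁻¹ (2 * b3 * v 2 ^ 2)⁻¹, hPdet⟩,
    2 * b3 * v 2 ^ 2, l * (2 * b3 * v 2 ^ 2), 2 * b2 * b3 * v 1 * v 2 / v 0, hρ, hσ, hne,
    ?_, ?_, ?_, ?_, ?_⟩
  · have := haB.cj_outer ⟨Pm b1 b2 (v 0) (v 1) (v 2) (v 2)⁻¹ (2 * b3 * v 2 ^ 2)⁻¹, hPdet⟩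
    simp only at this
    rwa [hform] at this
  · have := hbI.cj_inner ⟨Pm b1 b2 (v 0) (v 1) (v 2) (v 2)⁻¹ (2 * b3 * v 2 ^ 2)⁻¹, hPdet⟩
    simp only at this
    rwa [conj_eq hPdet (Pm_b iso hmv v φ rfl rfl rfl (by rw [p0, hQ2]) (by rw [p1, hQ2])
      (by rw [p2, hQ2]))] at this
  · have := hdI.cj_outer ⟨Pm b1 b2 (v 0) (v 1) (v 2) (v 2)⁻¹ (2 * b3 * v 2 ^ 2)⁻¹, hPdet⟩
    simp only at this
    rw [← mul_assoc, mul_assoc (_ * dg b1 b2 b3),
      Pm_k hmv w ψ ht.symm k0 k1 k2 hlt hz hr hl0, ← mul_assoc, hform] at this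
    have e1 : Q0 F * !![0, 0, (l * (2 * b3 * v 2 ^ 2))⁻¹; 0, -1, 0; l * (2 * b3 * v 2 ^ 2), 0, 0]
        = dg (l * (2 * b3 * v 2 ^ 2)) 1 (l * (2 * b3 * v 2 ^ 2))⁻¹ := by
      unfold Q0 dg
      rw [mul3]
      apply eq3 <;> ring
    rwa [e1] at this
  · have := heB.cj_outer ⟨Pm b1 b2 (v 0) (v 1) (v 2) (v 2)⁻¹ (2 * b3 * v 2 ^ 2)⁻¹, hPdet⟩
    simp only at this
    rwa [Pm_form4 iso hsv hmv hdet] at this
  · rcases hN.hc with hc | hc
    · left
      have := hc.cj_inner ⟨Pm b1 b2 (v 0) (v 1) (v 2) (v 2)⁻¹ (2 * b3 * v 2 ^ 2)⁻¹, hPdet⟩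
      simp only at this
      rwa [conj_eq hPdet hc1] at this
    · right
      have := hc.cj_outer ⟨Pm b1 b2 (v 0) (v 1) (v 2) (v 2)⁻¹ (2 * b3 * v 2 ^ 2)⁻¹, hPdet⟩
      simp only at this
      have e1 : dg b1 (-b2) (-b3) = dg b1 b2 b3 * dg 1 (-1) (-1) := by
        rw [dg_mul]
        congr 1 <;> ring
      rw [e1, ← mul_assoc, mul_assoc (_ * dg b1 b2 b3), hc1, ← mul_assoc, hform, ← hQ_Q0] at this
      exact this

end Pool.Agent.H17.SCG.P
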